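import Pool.Agent.Q209.DSp.HFCw

/-!
# Under CH there is a regular hereditarily paracompact space which is not a D-space

The space is a hereditarily Lindelöf subspace of `2^ω₁`. The proof is explained in
`Results/MP_63e8ca_gt/HFCwNotDuallyDiscrete.lean`.
-/

set_option autoImplicit false

namespace Pool.Agent.Results.MP_a0d807_gt.CHHereditarilyParacompactNotD

open Cardinal Q209.DSp

/-- D-spaces: each open neighbourhood assignment has a closed discrete kernel. -/
def DSpace (X : Type) [TopologicalSpace X] : Prop :=
  ∀ N : X → Set X, (∀ x, IsOpen (N x) ∧ x ∈ N x) →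
    ∃ D : Set X, IsClosed D ∧ DiscreteTopology D ∧ ⋃ x ∈ D, N x = Set.univ

/-- Under CH there is a regular `T₁` space which is hereditarily paracompact (even hereditarily
Lindelöf) and is not a D-space. -/
theorem result (hCH : continuum.{0} = aleph 1) :
    ∃ (X : Type) (_ : TopologicalSpace X),
      T3Space X ∧ (∀ Y : Set X, ParacompactSpace Y) ∧ HereditarilyLindelofSpace X ∧
      ¬ DSpace X := by
  obtain ⟨M, hM⟩ := exists_mat hCH
  have h0 := hl hM
  refine ⟨Set.range M, inferInstance, inferInstance, fun Y => paracompact_of_hl _ Y, h0, ?_⟩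
  intro h
  obtain ⟨D, -, hD, hU⟩ := h (nb M) fun x => ⟨nb_open x, nb_mem hM x⟩
  apply not_kernel hM 1 (fun _ => D) (fun _ => hD)
  rw [← hU]
  ext z
  simp

end Pool.Agent.Results.MP_a0d807_gt.CHHereditarilyParacompactNotD
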